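import Pool.Agent.BEP.Stmts

set_option autoImplicit false

/-!
# BEP, row SYP: symmetries of the product
-/

namespace Pool.Agent.BEP.H58

open Set Filter Topology MeasureTheory
open Pool.Agent Pool.Agent.BE01 Pool.Agent.BEG Pool.Agent.BEP

theorem syp : SypStmt := by
  intro d m Ω1 Ω2 G hS g hg
  obtain ⟨⟨A, hA, hA1⟩, hg2⟩ := hg
  have hmv : ∀ x : En (d + m), mv g x = jn (A (fs x)) (sn x) := by
    intro x
    unfold mv
    rw [← hA1, hg2, add_zero]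
    rfl
  have hmA : ∀ w : En d, mv ((A, 0) : (En d ≃ₗᵢ[ℝ] En d) × En d) w = A w := by
    intro w
    unfold mv
    show A w + 0 = A w
    rw [add_zero]
  have h : mv ((A, 0) : (En d ≃ₗᵢ[ℝ] En d) × En d) '' Ω1 = Ω1 := hS _ ⟨hA, rfl⟩
  apply Set.Subset.antisymm
  · rintro y ⟨x, hx, rfl⟩
    rw [hmv]
    refine ⟨?_, ?_⟩
    · rw [fs_jn, ← h]
      exact ⟨fs x, hx.1, hmA _⟩
    · rw [sn_jn]
      exact hx.2
  · intro y hy
    have h1 : fs y ∈ mv ((A, 0) : (En d ≃ₗᵢ[ℝ] En d) × En d) '' Ω1 := by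
      rw [h]
      exact hy.1
    obtain ⟨w, hw, hwy⟩ := h1
    refine ⟨jn w (sn y), ⟨?_, ?_⟩, ?_⟩
    · rw [fs_jn]
      exact hw
    · rw [sn_jn]
      exact hy.2
    · rw [hmv, fs_jn, sn_jn, ← hmA w, hwy, jn_fs_sn]

end Pool.Agent.BEP.H58
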